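import Pool.Agent.Helper72.WC.Defs

/-!
# WC-A2: sparse sets of pairs
-/

set_option autoImplicit false

namespace Pool.Agent.Helper72.WC

open Finset

variable {n : ℕ}

/-- The component of `x` inside `W`, up to distance `i`. -/
private def cmp (C : Finset (Sym2 (Fin n))) (W : Finset (Fin n)) (x : Fin n) :
    ℕ → Finset (Fin n)
  | 0 => {x}
  | i + 1 => cmp C W x i ∪ ((cmp C W x i).biUnion (nb C) ∩ W)

private theorem mem_nb {C : Finset (Sym2 (Fin n))} {x y : Fin n} : y ∈ nb C x ↔ s(x, y) ∈ C := by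
  simp [nb]

private theorem ball_mono (C : Finset (Sym2 (Fin n))) (x : Fin n) {i j : ℕ} (h : i ≤ j) :
    ball C i x ⊆ ball C j x := by
  induction j, h using Nat.le_induction with
  | base => exact Finset.Subset.refl _
  | succ j _ ih => exact ih.trans (by simp [ball, Finset.subset_union_left])

private theorem cmp_sub (C : Finset (Sym2 (Fin n))) {W : Finset (Fin n)} {x : Fin n} (hx : x ∈ W)
    (i : ℕ) : cmp C W x i ⊆ W ∧ x ∈ cmp C W x i ∧ cmp C W x i ⊆ ball C i x := by
  induction i with
  | zero =>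
    refine ⟨?_, ?_, ?_⟩
    · simpa [cmp] using hx
    · simp [cmp]
    · simp [cmp, ball]
  | succ i ih =>
    refine ⟨?_, ?_, ?_⟩
    · exact Finset.union_subset ih.1 Finset.inter_subset_right
    · exact Finset.mem_union_left _ ih.2.1
    · intro y hy
      rw [cmp, Finset.mem_union, Finset.mem_inter, Finset.mem_biUnion] at hy
      rw [ball, Finset.mem_union, Finset.mem_biUnion]
      rcases hy with hy | ⟨⟨z, hz, hzy⟩, _⟩
      · exact Or.inl (ih.2.2 hy)
      · exact Or.inr ⟨z, ih.2.2 hz, hzy⟩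

private theorem cmp_stat (C : Finset (Sym2 (Fin n))) {W : Finset (Fin n)} {x : Fin n}
    (hx : x ∈ W) : ∃ i < W.card, cmp C W x (i + 1) = cmp C W x i := by
  by_contra hcon
  have h1 : ∀ i < W.card, cmp C W x (i + 1) ≠ cmp C W x i := fun i hi h => hcon ⟨i, hi, h⟩
  have h2 : ∀ i ≤ W.card, i + 1 ≤ (cmp C W x i).card := by
    intro i
    induction i with
    | zero => intro _; simp [cmp]
    | succ i ih =>
      intro hi
      have h3 := ih (by omega)
      have h4 : cmp C W x i ⊂ cmp C W x (i + 1) :=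
        Finset.ssubset_iff_subset_ne.2 ⟨by rw [cmp]; exact Finset.subset_union_left,
          fun h => h1 i (by omega) h.symm⟩
      have := Finset.card_lt_card h4
      omega
  have h3 := h2 W.card le_rfl
  have h4 := Finset.card_le_card (cmp_sub C hx W.card).1
  omega

theorem sp_insert {C : Finset (Sym2 (Fin n))} {l : ℕ} {x y : Fin n} (hC : C ⊆ board n)
    (h : Sp l C) (hy : y ∉ ball C l x) : Sp l (insert s(x, y) C) := by
  intro W hW hWl
  by_cases he : s(x, y) ∈ W.sym2
  · have hxW : x ∈ W := (Finset.mk_mem_sym2_iff.1 he).1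
    have hyW : y ∈ W := (Finset.mk_mem_sym2_iff.1 he).2
    obtain ⟨i, hi, hst⟩ := cmp_stat C hxW
    obtain ⟨hT1, hT2, hT3⟩ := cmp_sub C hxW i
    set T := cmp C W x i with hT
    have hyT : y ∉ T := fun hyT => hy (ball_mono C x (by omega) (hT3 hyT))
    have hcl : ∀ u ∈ T, ∀ w ∈ W, s(u, w) ∈ C → w ∈ T := by
      intro u hu w hw huw
      have : w ∈ cmp C W x (i + 1) := by
        rw [cmp, Finset.mem_union, Finset.mem_inter, Finset.mem_biUnion]
        exact Or.inr ⟨⟨u, hu, mem_nb.2 huw⟩, hw⟩
      rw [hst] at this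
      exact this
    have hsub : (C.filter fun e => e ∈ W.sym2) ⊆
        (C.filter fun e => e ∈ T.sym2) ∪ (C.filter fun e => e ∈ (W \ T).sym2) := by
      intro e he
      induction e using Sym2.ind with
      | _ u w =>
        rw [Finset.mem_filter, Finset.mk_mem_sym2_iff] at he
        obtain ⟨heC, hu, hw⟩ := he
        rw [Finset.mem_union, Finset.mem_filter, Finset.mem_filter, Finset.mk_mem_sym2_iff,
          Finset.mk_mem_sym2_iff, Finset.mem_sdiff, Finset.mem_sdiff]
        by_cases h1 : u ∈ T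
        · exact Or.inl ⟨heC, h1, hcl u h1 w hw heC⟩
        · have h2 : w ∉ T := fun h2 => h1 (hcl w h2 u hu (by rw [Sym2.eq_swap]; exact heC))
          exact Or.inr ⟨heC, ⟨hu, h1⟩, ⟨hw, h2⟩⟩
    have h1 := h T ⟨x, hT2⟩ ((Finset.card_le_card hT1).trans hWl)
    have h2 := h (W \ T) ⟨y, Finset.mem_sdiff.2 ⟨hyW, hyT⟩⟩
      ((Finset.card_le_card Finset.sdiff_subset).trans hWl)
    have h3 := (Finset.card_le_card hsub).trans (Finset.card_union_le _ _)
    have h4 : (W \ T).card = W.card - T.card := Finset.card_sdiff_of_subset hT1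
    have h5 := Finset.card_le_card hT1
    have h6 : ((insert s(x, y) C).filter fun e => e ∈ W.sym2).card ≤
        (C.filter fun e => e ∈ W.sym2).card + 1 := by
      rw [Finset.filter_insert]
      split_ifs
      exact Finset.card_insert_le _ _
    omega
  · have : ((insert s(x, y) C).filter fun e => e ∈ W.sym2) = C.filter fun e => e ∈ W.sym2 := by
      rw [Finset.filter_insert, if_neg he]
    rw [this]
    exact h W hW hWl

theorem small_sets {C : Finset (Sym2 (Fin n))} {k l : ℕ} {A : Finset (Fin n)} (hC : C ⊆ board n)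
    (h : Sp l C) (hlo : ∀ x, k ≤ dg C x) (hk : 2 ≤ k) (hA : A.Nonempty) (hl : A.card + k ≤ l) :
    k ≤ ((A.biUnion (nb C)) \ A).card := by
  classical
  by_contra hlt
  set N := (A.biUnion (nb C)) \ A with hN
  have hNk : N.card < k := not_le.1 hlt
  have hAN : Disjoint A N := by
    rw [hN]
    exact Finset.disjoint_sdiff
  set E1 := C.filter fun e => e ∈ A.sym2 with hE1
  set E2 := C.filter fun e => e ∈ (A ∪ N).sym2 with hE2
  have hE12 : E1 ⊆ E2 := by
    intro e he
    rw [hE1, Finset.mem_filter] at he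
    rw [hE2, Finset.mem_filter]
    exact ⟨he.1, Finset.sym2_mono Finset.subset_union_left he.2⟩
  have h1 : E1.card < A.card := h A hA (by omega)
  have h2 : E2.card < A.card + N.card := by
    rw [← Finset.card_union_of_disjoint hAN]
    refine h (A ∪ N) ?_ ?_
    · obtain ⟨a, ha⟩ := hA
      exact ⟨a, Finset.mem_union_left _ ha⟩
    · rw [Finset.card_union_of_disjoint hAN]
      omega
  -- ordered pairs
  set P := (A.sigma fun v => nb C v) with hP
  have hPc : P.card = ∑ v ∈ A, dg C v := by
    rw [hP, Finset.card_sigma]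
    rfl
  have hPlo : A.card * k ≤ P.card := by
    rw [hPc]
    calc A.card * k = ∑ _v ∈ A, k := by rw [Finset.sum_const, smul_eq_mul]
      _ ≤ ∑ v ∈ A, dg C v := Finset.sum_le_sum fun v _ => hlo v
  set P1 := P.filter fun p => p.2 ∈ A with hP1
  set P2 := P.filter fun p => ¬ p.2 ∈ A with hP2
  have hP12 : P1.card + P2.card = P.card := Finset.card_filter_add_card_filter_not _
  have hP1c : P1.card ≤ 2 * E1.card := by
    have h3 : (P1.image fun p => s(p.1, p.2)) ⊆ E1 := by
      intro e he
      rw [Finset.mem_image] at he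
      obtain ⟨p, hp, rfl⟩ := he
      rw [hP1, Finset.mem_filter, hP, Finset.mem_sigma, mem_nb] at hp
      rw [hE1, Finset.mem_filter, Finset.mk_mem_sym2_iff]
      exact ⟨hp.1.2, hp.1.1, hp.2⟩
    have h4 : P1.card ≤ 2 * (P1.image fun p => s(p.1, p.2)).card := by
      refine Finset.card_le_mul_card_image _ _ fun e he => ?_
      induction e using Sym2.ind with
      | _ u w =>
        have h5 : (P1.filter fun p => s(p.1, p.2) = s(u, w)) ⊆ {⟨u, w⟩, ⟨w, u⟩} := by
          rintro ⟨a, b⟩ hp
          rw [Finset.mem_filter] at hp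
          have h6 := hp.2
          rw [Sym2.eq_iff] at h6
          rw [Finset.mem_insert, Finset.mem_singleton]
          rcases h6 with ⟨h7, h8⟩ | ⟨h7, h8⟩
          · left; simp only at h7 h8; subst h7; subst h8; rfl
          · right; simp only at h7 h8; subst h7; subst h8; rfl
        exact (Finset.card_le_card h5).trans Finset.card_le_two
    exact h4.trans (Nat.mul_le_mul_left 2 (Finset.card_le_card h3))
  have hP2c : P2.card ≤ (E2 \ E1).card := by
    refine Finset.card_le_card_of_injOn (fun p => s(p.1, p.2)) ?_ ?_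
    · intro p hp
      have hp' : p ∈ P2 := hp
      rw [hP2, Finset.mem_filter, hP, Finset.mem_sigma, mem_nb] at hp'
      have hmem : p.2 ∈ N := by
        rw [hN, Finset.mem_sdiff, Finset.mem_biUnion]
        exact ⟨⟨p.1, hp'.1.1, mem_nb.2 hp'.1.2⟩, hp'.2⟩
      show s(p.1, p.2) ∈ E2 \ E1
      rw [Finset.mem_sdiff, hE2, hE1, Finset.mem_filter, Finset.mem_filter,
        Finset.mk_mem_sym2_iff, Finset.mk_mem_sym2_iff]
      exact ⟨⟨hp'.1.2, Finset.mem_union_left _ hp'.1.1, Finset.mem_union_right _ hmem⟩,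
        fun h9 => hp'.2 h9.2.2⟩
    · rintro ⟨a, b⟩ hp ⟨c, d⟩ hq hpq
      have hp' : (⟨a, b⟩ : (_ : Fin n) × Fin n) ∈ P2 := hp
      have hq' : (⟨c, d⟩ : (_ : Fin n) × Fin n) ∈ P2 := hq
      rw [hP2, Finset.mem_filter, hP, Finset.mem_sigma] at hp' hq'
      simp only at hpq
      rw [Sym2.eq_iff] at hpq
      rcases hpq with ⟨h7, h8⟩ | ⟨h7, h8⟩
      · subst h7; subst h8; rfl
      · subst h7; subst h8
        exact absurd hq'.1.1 hp'.2
  have hcd : (E2 \ E1).card = E2.card - E1.card := Finset.card_sdiff_of_subset hE12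
  have hle12 := Finset.card_le_card hE12
  have hApos : 1 ≤ A.card := hA.card_pos
  obtain ⟨k', rfl⟩ : ∃ k', k = k' + 2 := ⟨k - 2, by omega⟩
  have hmul : k' ≤ A.card * k' := Nat.le_mul_of_pos_left _ (by omega)
  have hexp : A.card * (k' + 2) = A.card * k' + 2 * A.card := by ring
  omega

end Pool.Agent.Helper72.WC
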